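import Mathlib
import Pool.Agent.Helper872.RN.Sep

/-!
# `non(N) ≤ |K| < 𝔡` in a random extension of a model of `|K| < 𝔡`

* `NonNullFor K`: some family of elements of `2^ω`, indexed by `K`, is not null;
* `SuccFor K`: `|K| ≤ ℵ₁`;
* `DominatingFor K`: some family of functions from `ω` to `ω`, indexed by `K`, is dominating.
-/

set_option autoImplicit false

namespace Pool.Agent.Zk92.ND

open Cardinal MeasureTheory Pool.Agent.TH773.PSet Pool.Agent.V11242 Pool.Agent.V11242.RN
open Pool.Agent.Helper872.RN (SuccLe)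
open Pool.Agent.V11242.RF (HasDominating)

/-- There is a family of elements of `2^ω` which is indexed by `K` and is not null. -/
def NonNullFor (K : Type) : Prop :=
  ∃ r : K → ℕ → Bool, ∀ c : ℕ → Set (List Bool), NullCode c → ∃ k, ¬ InCoded (r k) c

/-- In other words, `|K| ≤ ℵ₁`: there are partial functions `R b` from `ℕ` to `K`, for `b ∈ K`, such
that of any two elements of `K` one is in the range of the function which belongs to the other. -/
def SuccFor (K : Type) : Prop :=
  ∃ R : K → ℕ → K → Prop, (∀ b n a a', a ≠ a' → ¬ (R b n a ∧ R b n a')) ∧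
    ∀ a b, (∃ n, R b n a) ∨ (∃ n, R a n b)

/-- There is a dominating family of functions from `ω` to `ω` which is indexed by `K`. -/
def DominatingFor (K : Type) : Prop :=
  ∃ D : K → ℕ → ℕ, ∀ f : ℕ → ℕ, ∃ l, ∃ N, ∀ n, N ≤ n → f n ≤ D l n

theorem exists_forcing {K : Type} (hK : #K = ℵ₁) (hL : ¬ DominatingFor K) :
    ∃ (P : Type) (_ : Preorder P), Nonempty P ∧
      (∀ A : Set P, (∀ p ∈ A, ∀ q ∈ A, p ≠ q → ¬ ∃ r, r ≤ p ∧ r ≤ q) → A.Countable) ∧
      ∀ p : P, p ∈ fand (NonNullFamily P K) (fand (SuccLe P ℕ K) (fnot (HasDominating P K))) := by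
  let I : Type := (Order.succ #K : Cardinal.{0}).out
  have hK0 : ℵ₀ < #K := by
    rw [hK]
    exact Cardinal.aleph0_lt_aleph_one
  have hI : #K < #I := by
    have h1 : #I = Order.succ #K := Cardinal.mk_out _
    rw [h1]
    exact Order.lt_succ _
  refine ⟨Random I, inferInstance, ⟨V11242.RF.mk Set.univ MeasurableSet.univ (by simp)⟩, ?_,
    fun p => ⟨(V11242.RN.phiHolds hK0 hI p).1, Helper872.RN.succLe (K := ℕ) (Y := K) ?_ ?_ p,
      V11242.RF.not_hasDominating (μ := coinProduct I) (fun D => ?_) p⟩⟩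
  · intro A hA
    refine V11242.RF.countable_of_incomp (μ := coinProduct I) (fun p : A => p.1)
      fun p q hpq => ?_
    exact hA p.1 p.2 q.1 q.2 fun h => hpq (Subtype.ext h)
  · exact (Cardinal.mk_nat).ge
  · rw [hK, Cardinal.mk_nat, Cardinal.succ_aleph0]
  · by_contra hcon
    push Not at hcon
    exact hL ⟨D, fun f => hcon f⟩

theorem le_aleph_one {K : Type} (h : SuccFor K) : #K ≤ ℵ₁ := by
  obtain ⟨R, hR1, hR2⟩ := h
  have h1 : ∀ b : K, #{a | ∃ n, R b n a} ≤ ℵ₀ := by
    intro b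
    refine Cardinal.le_aleph0_iff_set_countable.2 ?_
    have h2 : {a | ∃ n, R b n a} = ⋃ n, {a | R b n a} := by
      ext a
      simp
    rw [h2]
    refine Set.countable_iUnion fun n => Set.Subsingleton.countable fun a ha a' ha' => ?_
    by_contra hne
    exact hR1 b n a a' hne ⟨ha, ha'⟩
  by_contra hlt
  rw [not_le] at hlt
  obtain ⟨B, hB⟩ := Cardinal.le_mk_iff_exists_set.1 hlt.le
  have h2 : #(⋃ b ∈ B, {a | ∃ n, R b n a} : Set K) ≤ ℵ₁ := by
    refine (Cardinal.mk_biUnion_le _ _).trans ?_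
    rw [hB]
    calc (ℵ₁ : Cardinal.{0}) * ⨆ x : B, #{a | ∃ n, R x.1 n a} ≤ ℵ₁ * ℵ₁ :=
          mul_le_mul' le_rfl (ciSup_le' fun b => (h1 _).trans (Cardinal.aleph0_le_aleph 1))
      _ = ℵ₁ := Cardinal.mul_eq_self (Cardinal.aleph0_le_aleph 1)
  obtain ⟨y, hy⟩ : ∃ y, y ∉ (⋃ b ∈ B, {a | ∃ n, R b n a} : Set K) := by
    by_contra hcon
    push Not at hcon
    rw [Set.eq_univ_of_forall hcon, Cardinal.mk_univ] at h2
    exact absurd h2 (not_le.2 hlt)
  have h3 : B ⊆ {a | ∃ n, R y n a} := by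
    intro b hb
    rcases hR2 y b with h4 | h4
    · exact absurd (Set.mem_iUnion₂.2 ⟨b, hb, h4⟩) hy
    · exact h4
  have h4 := (Cardinal.mk_le_mk_of_subset h3).trans (h1 y)
  rw [hB] at h4
  exact absurd h4 (not_le.2 Cardinal.aleph0_lt_aleph_one)

theorem exists_notMem {K : Type} {r : K → ℕ → Bool}
    (hr : ∀ c : ℕ → Set (List Bool), NullCode c → ∃ k, ¬ InCoded (r k) c)
    {X : Set (ℕ → Bool)} (hX : lam X = 0) : ∃ k, r k ∉ X := by
  obtain ⟨c, hc, hc'⟩ := exists_code hX
  obtain ⟨k, hk⟩ := hr c hc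
  exact ⟨k, fun h => hk (hc' _ h)⟩

theorem aleph0_lt {K : Type} (h : NonNullFor K) : ℵ₀ < #K := by
  obtain ⟨r, hr⟩ := h
  by_contra hle
  have hc : (Set.range r).Countable :=
    Cardinal.le_aleph0_iff_set_countable.1 (Cardinal.mk_range_le.trans (not_lt.1 hle))
  have h0 : lam (Set.range r) = 0 := by
    have : ∀ x : ℕ → Bool, lam {x} = 0 := by
      intro x
      have h1 : ∀ n : ℕ, lam {x} ≤ (2 : ENNReal)⁻¹ ^ n := by
        intro n
        rw [← length_seg x n, ← lam_cyl]
        refine measure_mono ?_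
        rintro _ rfl
        exact mem_cyl_seg.2 fun _ _ => rfl
      have h2 := ENNReal.tendsto_pow_atTop_nhds_zero_of_lt_one
        (r := (2 : ENNReal)⁻¹) (ENNReal.inv_lt_one.2 (by norm_num))
      exact le_antisymm (ge_of_tendsto' h2 h1) bot_le
    rw [← Set.biUnion_of_singleton (Set.range r)]
    exact (measure_biUnion_null_iff hc).2 fun x _ => this x
  obtain ⟨k, hk⟩ := exists_notMem hr h0
  exact hk ⟨k, rfl⟩

/-- the function from `ω` to `ω` whose value at `n` is determined by the first `n` bits in the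
block with index `n` -/
noncomputable def fn (x : ℕ → Bool) (n : ℕ) : ℕ :=
  Encodable.encode ((List.range n).map fun j => x (Nat.pair n j))

theorem lam_fn (g : ℕ → ℕ) (n : ℕ) : lam {x | fn x n = g n} ≤ (2 : ENNReal)⁻¹ ^ n := by
  classical
  by_cases h : ∃ y, fn y n = g n
  · obtain ⟨y, hy⟩ := h
    let s : Finset ℕ := (Finset.range n).image fun j => Nat.pair n j
    have hcard : s.card = n := by
      rw [Finset.card_image_of_injective, Finset.card_range]
      intro a b h
      exact (Nat.pair_eq_pair.1 h).2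
    have h1 : {x | fn x n = g n} ⊆ Set.pi s fun i => {y i} := by
      intro x hx i hi
      have h2 : fn x n = fn y n := hx.trans hy.symm
      have h3 := Encodable.encode_injective h2
      obtain ⟨j, hj, rfl⟩ := Finset.mem_image.1 (Finset.mem_coe.1 hi)
      have h4 := List.map_inj_left.1 h3 j (List.mem_range.2 (Finset.mem_range.1 hj))
      exact h4
    refine (measure_mono h1).trans ?_
    rw [lam_pi, hcard]
  · have h1 : {x | fn x n = g n} = ∅ := by
      ext x
      simp only [Set.mem_ofPred_eq, Set.mem_empty_iff_false, iff_false]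
      exact fun hx => h ⟨x, hx⟩
    rw [h1, measure_empty]
    exact zero_le

theorem lam_often (g : ℕ → ℕ) : lam {x | ∃ᶠ n in Filter.atTop, fn x n = g n} = 0 := by
  refine measure_setOfPred_frequently_eq_zero (p := fun n x => fn x n = g n) ?_
  refine ne_top_of_le_ne_top ?_ (ENNReal.tsum_le_tsum fun n => lam_fn g n)
  rw [ENNReal.tsum_geometric]
  simp

/-- Rothberger's inequality `cov(M) ≤ non(N)`. -/
theorem exists_family {K : Type} (h : NonNullFor K) : ∃ F : Set (ℕ → ℕ), #F ≤ #K ∧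
    ∀ g : ℕ → ℕ, ∃ f ∈ F, {n | f n = g n}.Finite := by
  obtain ⟨r, hr⟩ := h
  refine ⟨Set.range fun k => fn (r k), Cardinal.mk_range_le, fun g => ?_⟩
  obtain ⟨k, hk⟩ := exists_notMem hr (lam_often g)
  refine ⟨_, ⟨k, rfl⟩, ?_⟩
  by_contra hinf
  exact hk (Nat.frequently_atTop_iff_infinite.2 hinf)

end Pool.Agent.Zk92.ND
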